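import Pool.Agent.X222.PZ.Loc

/-!
The double of a pircon is a zircon.
-/

namespace Pool.Agent.X222.PZ

universe u

/-- two copies of `P` -/
inductive Dbl (P : Type u) : Type u
  | o : P → Dbl P
  | i : P → Dbl P

namespace Dbl

variable {P : Type u} [PartialOrder P]

/-- the order of the double -/
def le' : Dbl P → Dbl P → Prop
  | o x, o y => x ≤ y
  | o x, i y => x ≤ y
  | i x, i y => x ≤ y
  | i x, o y => bd x y

instance : PartialOrder (Dbl P) where
  le := le'
  le_refl := by
    rintro (x | x)
    · exact le_refl x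
    · exact le_refl x
  le_trans := by
    rintro (x | x) (y | y) (z | z) h1 h2
    · exact le_trans (α := P) h1 h2
    · exact le_trans (α := P) h1 h2
    · exact le_trans (α := P) h1 (bd_lt h2).le
    · exact le_trans (α := P) h1 h2
    · exact bd_mono h1 le_rfl h2
    · exact (bd_lt h1).le.trans h2
    · exact bd_mono h2 h1 le_rfl
    · exact le_trans (α := P) h1 h2
  le_antisymm := by
    rintro (x | x) (y | y) h1 h2
    · exact congrArg o (le_antisymm (α := P) h1 h2)
    · exact absurd (bd_lt h2) (not_lt_of_ge h1)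
    · exact absurd (bd_lt h1) (not_lt_of_ge h2)
    · exact congrArg i (le_antisymm (α := P) h1 h2)

theorem oo_le {x y : P} : (o x ≤ o y) ↔ x ≤ y := Iff.rfl
theorem oi_le {x y : P} : (o x ≤ i y) ↔ x ≤ y := Iff.rfl
theorem ii_le {x y : P} : (i x ≤ i y) ↔ x ≤ y := Iff.rfl
theorem io_le {x y : P} : (i x ≤ o y) ↔ bd x y := Iff.rfl

theorem oo_lt {x y : P} : (o x < o y) ↔ x < y := by
  rw [lt_iff_le_not_ge, lt_iff_le_not_ge, oo_le, oo_le]
theorem ii_lt {x y : P} : (i x < i y) ↔ x < y := by
  rw [lt_iff_le_not_ge, lt_iff_le_not_ge, ii_le, ii_le]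
theorem oi_lt {x y : P} : (o x < i y) ↔ x ≤ y := by
  rw [lt_iff_le_not_ge, oi_le, io_le]
  exact ⟨fun h => h.1, fun h => ⟨h, fun h' => absurd (bd_lt h') (not_lt_of_ge h)⟩⟩
theorem io_lt {x y : P} : (i x < o y) ↔ bd x y := by
  rw [lt_iff_le_not_ge, oi_le, io_le]
  exact ⟨fun h => h.1, fun h => ⟨h, fun h' => absurd (bd_lt h) (not_lt_of_ge h')⟩⟩

theorem oo_cov {x y : P} : (o x ⋖ o y) ↔ x ⋖ y := by
  constructor
  · rintro ⟨h1, h2⟩
    exact ⟨oo_lt.1 h1, fun t h3 h4 => h2 (oo_lt.2 h3) (oo_lt.2 h4)⟩
  · rintro ⟨h1, h2⟩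
    refine ⟨oo_lt.2 h1, ?_⟩
    rintro (t | t) h3 h4
    · exact h2 (oo_lt.1 h3) (oo_lt.1 h4)
    · obtain ⟨w, h5, h6⟩ := bd_exists (io_lt.1 h4)
      exact h2 ((oi_lt.1 h3).trans_lt h5) h6

theorem ii_cov {x y : P} : (i x ⋖ i y) ↔ x ⋖ y := by
  constructor
  · rintro ⟨h1, h2⟩
    exact ⟨ii_lt.1 h1, fun t h3 h4 => h2 (ii_lt.2 h3) (ii_lt.2 h4)⟩
  · rintro ⟨h1, h2⟩
    refine ⟨ii_lt.2 h1, ?_⟩
    rintro (t | t) h3 h4
    · obtain ⟨w, h5, h6⟩ := bd_exists (io_lt.1 h3)
      exact h2 h5 (h6.trans_le (oi_lt.1 h4))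
    · exact h2 (ii_lt.1 h3) (ii_lt.1 h4)

theorem oi_cov {x y : P} : (o x ⋖ i y) ↔ x = y := by
  constructor
  · rintro ⟨h1, h2⟩
    rcases (oi_lt.1 h1).eq_or_lt with h | h
    · exact h
    · exact absurd (oi_lt.2 (le_refl y)) (h2 (oo_lt.2 h))
  · rintro rfl
    refine ⟨oi_lt.2 le_rfl, ?_⟩
    rintro (t | t) h3 h4
    · exact absurd (oo_lt.1 h3) (not_lt_of_ge (oi_lt.1 h4))
    · exact absurd (ii_lt.1 h4) (not_lt_of_ge (oi_lt.1 h3))

theorem io_cov {x y : P} (h : i x ⋖ o y) : ∃ w, Thin1 x w y := by
  obtain ⟨h1, h2⟩ := h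
  obtain ⟨u, w, v, h3, h4, h5⟩ := io_lt.1 h1
  have hxu : x = u := by
    rcases h3.eq_or_lt with h | h
    · exact h
    · exact absurd (io_lt.2 ⟨u, w, v, le_rfl, h4, h5⟩) (h2 (ii_lt.2 h))
  have hvy : v = y := by
    rcases h5.eq_or_lt with h | h
    · exact h
    · exact absurd (oo_lt.2 h) (h2 (io_lt.2 ⟨u, w, v, h3, h4, le_rfl⟩))
  subst hxu hvy
  exact ⟨w, h4⟩

/-- the rank function of the double -/
def rkD (rk : P → ℕ) : Dbl P → ℕ
  | o x => rk x
  | i x => rk x + 1

theorem isMin_o {x : P} : IsMin (o x) ↔ IsMin x := by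
  constructor
  · intro h y hy
    exact h (b := o y) hy
  · rintro h (y | y) hy
    · exact h (b := y) hy
    · exact absurd (h (bd_lt (io_le.1 hy)).le) (not_le_of_gt (bd_lt (io_le.1 hy)))

theorem not_isMin_i (x : P) : ¬ IsMin (i x) := by
  intro h
  have h1 : i x ≤ o x := h (oi_le.2 le_rfl)
  exact lt_irrefl _ (bd_lt (io_le.1 h1))

theorem isRank_rkD {rk : P → ℕ} (hr : IsRank rk) : IsRank (rkD rk) := by
  constructor
  · rintro (x | x) hx
    · exact hr.1 x (isMin_o.1 hx)
    · exact absurd hx (not_isMin_i x)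
  · rintro (x | x) (y | y) h
    · exact hr.2 _ _ (oo_cov.1 h)
    · rw [oi_cov.1 h]; rfl
    · obtain ⟨w, h1⟩ := io_cov h
      have e1 := hr.2 _ _ h1.1
      have e2 := hr.2 _ _ h1.2.1
      change rk y = rk x + 1 + 1
      omega
    · have e1 := hr.2 _ _ (ii_cov.1 h)
      change rk y + 1 = rk x + 1 + 1
      omega

theorem finite_D (hf : ∀ p : P, (Set.Iic p).Finite) (z : Dbl P) : (Set.Iic z).Finite := by
  obtain ⟨p, hp⟩ : ∃ p : P, z = o p ∨ z = i p := by
    rcases z with x | x
    · exact ⟨x, Or.inl rfl⟩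
    · exact ⟨x, Or.inr rfl⟩
  refine (((hf p).image o).union ((hf p).image i)).subset ?_
  rcases hp with rfl | rfl
  · rintro (x | x) hx
    · exact Or.inl ⟨x, hx, rfl⟩
    · exact Or.inr ⟨x, (bd_lt (io_le.1 hx)).le, rfl⟩
  · rintro (x | x) hx
    · exact Or.inl ⟨x, hx, rfl⟩
    · exact Or.inr ⟨x, hx, rfl⟩

/-- the exchange of the two copies -/
def swap : Dbl P → Dbl P
  | o x => i x
  | i x => o x

theorem swap_spm (p : P) : IsSPM (i p) (swap : Dbl P → Dbl P) := by
  constructor
  · rintro (x | x) hx
    · exact hx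
    · exact hx
  · rintro (x | x) _ <;> rfl
  · exact oi_cov.2 rfl
  · rintro (x | x) _
    · exact Or.inr (Or.inr (oi_cov.2 rfl))
    · exact Or.inl (oi_cov.2 rfl)
  · rintro (x | x) (y | y) _ h hne
    · exact ii_lt.2 (oo_cov.1 h).lt
    · exact absurd (congrArg i (oi_cov.1 h)) hne
    · obtain ⟨w, h1⟩ := io_cov h
      exact oi_lt.2 (h1.1.lt.trans h1.2.1.lt).le
    · exact oo_lt.2 (ii_cov.1 h).lt

theorem swap_ne (z : Dbl P) : swap z ≠ z := by
  rcases z with x | x <;> exact fun h => nomatch h

open Classical in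
/-- the extension of a special partial matching to the double -/
noncomputable def ext (M : P → P) : Dbl P → Dbl P
  | o x => if M x = x then i x else o (M x)
  | i x => if M x = x then o x else i (M x)

theorem ext_o_fix {M : P → P} {x : P} (h : M x = x) : ext M (o x) = i x := if_pos h
theorem ext_o {M : P → P} {x : P} (h : M x ≠ x) : ext M (o x) = o (M x) := if_neg h
theorem ext_i_fix {M : P → P} {x : P} (h : M x = x) : ext M (i x) = o x := if_pos h
theorem ext_i {M : P → P} {x : P} (h : M x ≠ x) : ext M (i x) = i (M x) := if_neg h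

theorem ext_ne (M : P → P) (z : Dbl P) : ext M z ≠ z := by
  rcases z with x | x
  · by_cases h : M x = x
    · rw [ext_o_fix h]; exact fun h => nomatch h
    · rw [ext_o h]
      intro h'
      injection h' with h'
      exact h h'
  · by_cases h : M x = x
    · rw [ext_i_fix h]; exact fun h => nomatch h
    · rw [ext_i h]
      intro h'
      injection h' with h'
      exact h h'

theorem ext_spm {p : P} {M : P → P} {rk : P → ℕ} (hf : ∀ p : P, (Set.Iic p).Finite)
    (hr : IsRank rk) (hM : IsSPM p M) : IsSPM (o p) (ext M) := by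
  have htri : ∀ x, x ≤ p → M x ≠ x → M x ⋖ x ∨ x ⋖ M x := by
    intro x hx hne
    rcases hM.tri x hx with h | h | h
    · exact Or.inl h
    · exact absurd h hne
    · exact Or.inr h
  have hinv : ∀ x, x ≤ p → M x ≠ x → M (M x) ≠ M x := by
    intro x hx hne h
    rw [hM.inv x hx] at h
    exact hne h.symm
  constructor
  · rintro (x | x) hx
    · have hx' : x ≤ p := hx
      by_cases h : M x = x
      · rw [ext_o_fix h]
        exact io_le.2 (bd_fix hf hr hM le_rfl hM.top hx' h)
      · rw [ext_o h]
        exact oo_le.2 (hM.le x hx')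
    · have hb : bd x p := hx
      have hx' : x ≤ p := (bd_lt hb).le
      by_cases h : M x = x
      · rw [ext_i_fix h]
        exact oo_le.2 hx'
      · rw [ext_i h]
        rcases htri x hx' h with h1 | h1
        · exact io_le.2 (bd_mono hb h1.le le_rfl)
        · exact io_le.2 (bd_up hf hr hM h1 hb)
  · rintro (x | x) hx
    · have hx' : x ≤ p := hx
      by_cases h : M x = x
      · rw [ext_o_fix h, ext_i_fix h]
      · rw [ext_o h, ext_o (hinv x hx' h), hM.inv x hx']
    · have hx' : x ≤ p := (bd_lt (io_le.1 hx)).le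
      by_cases h : M x = x
      · rw [ext_i_fix h, ext_o_fix h]
      · rw [ext_i h, ext_i (hinv x hx' h), hM.inv x hx']
  · rw [ext_o hM.top.lt.ne]
    exact oo_cov.2 hM.top
  · rintro (x | x) hx
    · have hx' : x ≤ p := hx
      by_cases h : M x = x
      · rw [ext_o_fix h]
        exact Or.inr (Or.inr (oi_cov.2 rfl))
      · rw [ext_o h]
        rcases htri x hx' h with h1 | h1
        · exact Or.inl (oo_cov.2 h1)
        · exact Or.inr (Or.inr (oo_cov.2 h1))
    · have hx' : x ≤ p := (bd_lt (io_le.1 hx)).le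
      by_cases h : M x = x
      · rw [ext_i_fix h]
        exact Or.inl (oi_cov.2 rfl)
      · rw [ext_i h]
        rcases htri x hx' h with h1 | h1
        · exact Or.inl (ii_cov.2 h1)
        · exact Or.inr (Or.inr (ii_cov.2 h1))
  · rintro (x | x) (y | y) hyp hxy hne
    · -- o x ⋖ o y
      have hy : y ≤ p := hyp
      have h := oo_cov.1 hxy
      by_cases hx1 : M x = x
      · have hne' : M x ≠ y := by rw [hx1]; exact h.lt.ne
        have h1 := hM.mono x y hy h hne'
        rw [hx1] at h1
        rw [ext_o_fix hx1]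
        by_cases hy1 : M y = y
        · rw [ext_o_fix hy1]
          exact ii_lt.2 h.lt
        · rw [ext_o hy1]
          have hup : y ⋖ M y := by
            rcases htri y hy hy1 with h2 | h2
            · have e1 := rk_lt hf hr _ _ h1
              have e2 := hr.2 _ _ h
              have e3 := hr.2 _ _ h2
              omega
            · exact h2
          have hMy := hM.le y hy
          have hdown : M (M y) ⋖ M y := by rw [hM.inv y hy]; exact hup
          exact io_lt.2 (bd_fix hf hr hM hMy hdown h1.le hx1)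
      · rw [ext_o hx1]
        rw [ext_o hx1] at hne
        have hne' : M x ≠ y := fun h => hne (congrArg o h)
        have h1 := hM.mono x y hy h hne'
        by_cases hy1 : M y = y
        · rw [ext_o_fix hy1]
          rw [hy1] at h1
          exact oi_lt.2 h1.le
        · rw [ext_o hy1]
          exact oo_lt.2 h1
    · -- o x ⋖ i y, x = y
      have h := oi_cov.1 hxy
      subst h
      have hx' : x ≤ p := (bd_lt (io_le.1 hyp)).le
      by_cases hx1 : M x = x
      · rw [ext_o_fix hx1] at hne
        exact absurd rfl hne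
      · rw [ext_o hx1, ext_i hx1]
        exact oi_lt.2 le_rfl
    · -- i x ⋖ o y
      have hy : y ≤ p := hyp
      obtain ⟨w, hT⟩ := io_cov hxy
      have hxy' : x < y := hT.1.lt.trans hT.2.1.lt
      have hw : w ≤ p := hT.2.1.le.trans hy
      have e1 := hr.2 _ _ hT.1
      have e2 := hr.2 _ _ hT.2.1
      by_cases hx1 : M x = x
      · rw [ext_i_fix hx1]
        by_cases hy1 : M y = y
        · rw [ext_o_fix hy1]
          exact oi_lt.2 hxy'.le
        · rw [ext_o hy1]
          rcases htri y hy hy1 with h2 | h2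
          · -- M y ⋖ y
            by_cases hc : M w = y
            · have : M y = w := by rw [← hc, hM.inv w hw]
              rw [this]
              exact oo_lt.2 hT.1.lt
            · have h3 := hM.mono w y hy hT.2.1 hc
              have h4 := hM.mono x w hw hT.1 (by rw [hx1]; exact hT.1.lt.ne)
              rw [hx1] at h4
              exact oo_lt.2 (h4.trans h3)
          · exact oo_lt.2 (hxy'.trans h2.lt)
      · rw [ext_i hx1]
        have hx' : x ≤ p := hxy'.le.trans hy
        by_cases hy1 : M y = y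
        · rw [ext_o_fix hy1]
          rcases htri x hx' hx1 with h2 | h2
          · exact ii_lt.2 (h2.lt.trans hxy')
          · rw [up_fix hf hr hM hT hy h2 hy1]
            exact ii_lt.2 hT.2.1.lt
        · rw [ext_o hy1]
          rcases htri x hx' hx1 with h2 | h2 <;> rcases htri y hy hy1 with h3 | h3
          · obtain ⟨w', hT'⟩ := down_down hf hr hM hT hy h2 h3
            exact io_lt.2 (bd_of hT')
          · exact io_lt.2 (bd_mono (bd_of hT) h2.le h3.le)
          · exact (up_down hf hr hM hT hy h2 h3).elim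
          · obtain ⟨w', hT'⟩ := up_up hf hr hM hT hy h2 h3 (hM.le y hy)
            exact io_lt.2 (bd_of hT')
    · -- i x ⋖ i y
      have hy : y ≤ p := (bd_lt (io_le.1 hyp)).le
      have h := ii_cov.1 hxy
      have hx' : x ≤ p := h.le.trans hy
      by_cases hx1 : M x = x
      · rw [ext_i_fix hx1]
        by_cases hy1 : M y = y
        · rw [ext_i_fix hy1]
          exact oo_lt.2 h.lt
        · rw [ext_i hy1]
          have hne' : M x ≠ y := by rw [hx1]; exact h.lt.ne
          have h1 := hM.mono x y hy h hne'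
          rw [hx1] at h1
          exact oi_lt.2 h1.le
      · rw [ext_i hx1]
        rw [ext_i hx1] at hne
        have hne' : M x ≠ y := fun h => hne (congrArg i h)
        have h1 := hM.mono x y hy h hne'
        by_cases hy1 : M y = y
        · rw [ext_i_fix hy1]
          rw [hy1] at h1
          have e0 := hr.2 _ _ h
          have e1 := rk_lt hf hr _ _ h1
          have h2 : M x ⋖ x := by
            rcases htri x hx' hx1 with h2 | h2
            · exact h2
            · have := hr.2 _ _ h2
              omega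
          have e2 := hr.2 _ _ h2
          refine io_lt.2 (bd_of (w := x) ⟨h2, h, ?_⟩)
          intro t ht1 ht2
          by_contra htx
          have e3 := rk_lt hf hr _ _ ht1
          have e4 := rk_lt hf hr _ _ ht2
          have htp : t ≤ p := ht2.le.trans hy
          have c1 : M x ⋖ t := cov_of_rk hf hr ht1 (by omega)
          have c2 : t ⋖ y := cov_of_rk hf hr ht2 (by omega)
          have h3 := hM.mono (M x) t htp c1 (by rw [hM.inv x hx']; exact fun h => htx h.symm)
          rw [hM.inv x hx'] at h3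
          have hty : M t ≠ y := by
            intro h'
            have := hM.inv t htp
            rw [h', hy1] at this
            exact c2.lt.ne this.symm
          have h4 := hM.mono t y hy c2 hty
          rw [hy1] at h4
          have e5 := rk_lt hf hr _ _ h3
          have e6 := rk_lt hf hr _ _ h4
          omega
        · rw [ext_i hy1]
          exact ii_lt.2 h1

end Dbl

end Pool.Agent.X222.PZ
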