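import Mathlib

/-!
Special partial matchings, pircons and zircons: definitions and the rank function of a pircon.
-/

namespace Pool.Agent.X222.PZ

universe u

/-- `M` is (on the ideal of the elements `≤ p`) a special partial matching of this ideal. -/
structure IsSPM {P : Type u} [PartialOrder P] (p : P) (M : P → P) : Prop where
  le : ∀ x, x ≤ p → M x ≤ p
  inv : ∀ x, x ≤ p → M (M x) = x
  top : M p ⋖ p
  tri : ∀ x, x ≤ p → M x ⋖ x ∨ M x = x ∨ x ⋖ M x
  mono : ∀ x y, y ≤ p → x ⋖ y → M x ≠ y → M x < M y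

/-- pircons -/
def Pircon (P : Type u) [PartialOrder P] : Prop :=
  ∀ p : P, ¬ IsMin p → (Set.Iic p).Finite ∧ ∃ M : P → P, IsSPM p M

/-- rank functions -/
def IsRank {P : Type u} [PartialOrder P] (rk : P → ℕ) : Prop :=
  (∀ x, IsMin x → rk x = 0) ∧ ∀ x y, x ⋖ y → rk y = rk x + 1

theorem finite_Iic {P : Type u} [PartialOrder P] (h : ∀ p : P, ¬ IsMin p → (Set.Iic p).Finite)
    (p : P) : (Set.Iic p).Finite := by
  by_cases hp : IsMin p
  · refine (Set.finite_singleton p).subset fun x hx => ?_
    exact le_antisymm hx (hp hx)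
  · exact h p hp

theorem wf {P : Type u} [PartialOrder P] (h : ∀ p : P, (Set.Iic p).Finite) :
    WellFounded ((· < ·) : P → P → Prop) := by
  have hm : StrictMono fun x : P => (Set.Iic x).ncard := by
    intro x y hxy
    exact Set.ncard_lt_ncard (Set.Iic_ssubset_Iic.2 hxy) (h y)
  exact hm.wellFoundedLT.wf

theorem exists_cov {P : Type u} [PartialOrder P] (h : ∀ p : P, (Set.Iic p).Finite) {x y : P}
    (hxy : x < y) : ∃ s, x ⋖ s ∧ s ≤ y := by
  obtain ⟨s, hs, hmin⟩ := (wf h).has_min {s | x < s ∧ s ≤ y} ⟨y, hxy, le_rfl⟩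
  refine ⟨s, ⟨hs.1, fun r h1 h2 => hmin r ⟨h1, h2.le.trans hs.2⟩ h2⟩, hs.2⟩

theorem exists_cov' {P : Type u} [PartialOrder P] (h : ∀ p : P, (Set.Iic p).Finite) {x y : P}
    (hxy : x < y) : ∃ s, x ≤ s ∧ s ⋖ y := by
  have hfin : {s | x ≤ s ∧ s < y}.Finite := (h y).subset fun s hs => hs.2.le
  obtain ⟨s, hs, hmax⟩ := hfin.exists_maximal ⟨x, le_rfl, hxy⟩
  refine ⟨s, hs.1, hs.2, fun r h1 h2 => ?_⟩
  exact absurd (hmax ⟨hs.1.trans h1.le, h2⟩ h1.le) (not_le_of_gt h1)

theorem rk_lt {P : Type u} [PartialOrder P] (h : ∀ p : P, (Set.Iic p).Finite) {rk : P → ℕ}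
    (hr : IsRank rk) : ∀ y x : P, x < y → rk x < rk y := by
  intro y
  induction y using (wf h).induction with
  | _ y ih =>
    intro x hxy
    obtain ⟨s, h1, h2⟩ := exists_cov' h hxy
    have h3 := hr.2 s y h2
    rcases h1.eq_or_lt with h4 | h4
    · rw [h4]; omega
    · have := ih s h2.lt x h4
      omega

theorem rk_le {P : Type u} [PartialOrder P] (h : ∀ p : P, (Set.Iic p).Finite) {rk : P → ℕ}
    (hr : IsRank rk) {x y : P} (hxy : x ≤ y) : rk x ≤ rk y := by
  rcases hxy.eq_or_lt with h1 | h1
  · rw [h1]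
  · exact (rk_lt h hr y x h1).le

theorem cov_of_rk {P : Type u} [PartialOrder P] (h : ∀ p : P, (Set.Iic p).Finite) {rk : P → ℕ}
    (hr : IsRank rk) {x y : P} (hxy : x < y) (h1 : rk y ≤ rk x + 1) : x ⋖ y := by
  refine ⟨hxy, fun r h2 h3 => ?_⟩
  have h4 := rk_lt h hr _ _ h2
  have h5 := rk_lt h hr _ _ h3
  omega

/-- every pircon has a rank function -/
theorem exists_rank {P : Type u} [PartialOrder P] (hP : Pircon P) : ∃ rk : P → ℕ, IsRank rk := by
  classical
  have hfin := finite_Iic (fun p hp => (hP p hp).1)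
  have hwf := wf hfin
  have h0 : ∀ p : P, ∃ M : P → P, ¬ IsMin p → IsSPM p M := by
    intro p
    by_cases hp : IsMin p
    · exact ⟨id, fun h => absurd hp h⟩
    · obtain ⟨M, hM⟩ := (hP p hp).2
      exact ⟨M, fun _ => hM⟩
  choose M hM using h0
  let F : (x : P) → ((y : P) → y < x → ℕ) → ℕ := fun x ih =>
    if h : IsMin x then 0 else ih (M x x) (hM x h).top.lt + 1
  let rk : P → ℕ := hwf.fix F
  have hrk : ∀ x, rk x = if h : IsMin x then 0 else rk (M x x) + 1 := by
    intro x
    exact hwf.fix_eq F x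
  refine ⟨rk, fun x hx => ?_, ?_⟩
  · rw [hrk, dif_pos hx]
  · intro x y
    revert x
    induction y using hwf.induction with
    | _ y ih =>
      intro z hz
      have hy : ¬ IsMin y := fun h => not_le_of_gt hz.lt (h hz.le)
      have hMy := hM y hy
      have e1 : rk y = rk (M y y) + 1 := by
        rw [hrk y, dif_neg hy]
      by_cases hzm : z = M y y
      · rw [hzm]; exact e1
      · have h1 : M y z ≠ y := by
          intro h
          apply hzm
          have h' := hMy.inv z hz.le
          rw [h] at h'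
          exact h'.symm
        have h2 := hMy.mono z y le_rfl hz h1
        have hzl : ¬ z < M y y := fun h => hz.2 h hMy.top.lt
        have h3 : M y z ⋖ z := by
          rcases hMy.tri z hz.le with h | h | h
          · exact h
          · rw [h] at h2; exact absurd h2 hzl
          · exact absurd (h.lt.trans h2) hzl
        have h4 : M y z ⋖ M y y := by
          refine ⟨h2, fun t h5 h6 => ?_⟩
          obtain ⟨t1, h7, h8⟩ := exists_cov hfin h5
          have h9 : t1 < M y y := h8.trans_lt h6
          have h10 : t1 ≤ y := h9.le.trans hMy.top.le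
          have h11 : M y (M y z) ≠ t1 := by
            rw [hMy.inv z hz.le]
            intro h
            rw [← h] at h9
            exact hzl h9
          have h12 := hMy.mono _ _ h10 h7 h11
          rw [hMy.inv z hz.le] at h12
          have h13 := hMy.le t1 h10
          rcases h13.eq_or_lt with h14 | h14
          · have h15 := hMy.inv t1 h10
            rw [h14] at h15
            rw [h15] at h9
            exact lt_irrefl _ h9
          · exact hz.2 h12 h14
        have e2 := ih z hz.lt (M y z) h3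
        have e3 := ih (M y y) hMy.top.lt (M y z) h4
        omega

end Pool.Agent.X222.PZ
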