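import Pool.Agent.X222.PZ.Defs

/-!
Special partial matchings and intervals of rank two with one middle element.
-/

namespace Pool.Agent.X222.PZ

universe u

variable {P : Type u} [PartialOrder P]

/-- the interval `[u, v]` has rank two and exactly one middle element `w` -/
def Thin1 (u w v : P) : Prop := u ⋖ w ∧ w ⋖ v ∧ ∀ t, u < t → t < v → t = w

/-- `[x, y]` contains an interval of rank two with exactly one middle element -/
def bd (x y : P) : Prop := ∃ u w v, x ≤ u ∧ Thin1 u w v ∧ v ≤ y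

theorem bd_mono {x x' y y' : P} (h : bd x y) (hx : x' ≤ x) (hy : y ≤ y') : bd x' y' := by
  obtain ⟨u, w, v, h1, h2, h3⟩ := h
  exact ⟨u, w, v, hx.trans h1, h2, h3.trans hy⟩

theorem bd_lt {x y : P} (h : bd x y) : x < y := by
  obtain ⟨u, w, v, h1, h2, h3⟩ := h
  exact h1.trans_lt ((h2.1.lt.trans h2.2.1.lt).trans_le h3)

theorem bd_exists {x y : P} (h : bd x y) : ∃ w, x < w ∧ w < y := by
  obtain ⟨u, w, v, h1, h2, h3⟩ := h
  exact ⟨w, h1.trans_lt h2.1.lt, h2.2.1.lt.trans_le h3⟩

theorem bd_of {u w v : P} (h : Thin1 u w v) : bd u v := ⟨u, w, v, le_rfl, h, le_rfl⟩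

section

variable {p : P} {M : P → P} {rk : P → ℕ}

theorem inj (hM : IsSPM p M) {x y : P} (hx : x ≤ p) (hy : y ≤ p) (h : M x = M y) : x = y := by
  rw [← hM.inv x hx, h, hM.inv y hy]

variable (hf : ∀ p : P, (Set.Iic p).Finite) (hr : IsRank rk) (hM : IsSPM p M)

include hf hr hM

/-- the image of the lower element is lower in a covering pair; rank form of `mono` -/
theorem rk_mono {x y : P} (hy : y ≤ p) (h : x ⋖ y) (hne : M x ≠ y) : rk (M x) < rk (M y) :=
  rk_lt hf hr _ _ (hM.mono x y hy h hne)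

theorem lift_aux (n : ℕ) : ∀ y z : P, rk z - rk y ≤ n → y ≤ z → z ≤ p → y ⋖ M y → ¬ z ⋖ M z →
    M y ≤ z := by
  induction n with
  | zero =>
    intro y z hn hyz hz hy hnz
    rcases hyz.eq_or_lt with h | h
    · subst h; exact absurd hy hnz
    · have := rk_lt hf hr _ _ h
      omega
  | succ n ih =>
    intro y z hn hyz hz hy hnz
    rcases hyz.eq_or_lt with h | h
    · subst h; exact absurd hy hnz
    · obtain ⟨v, h1, h2⟩ := exists_cov hf h
      by_cases hv : M y = v
      · rw [hv]; exact h2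
      · have h3 := hM.mono y v (h2.trans hz) h1 hv
        have h4 := rk_lt hf hr _ _ h3
        have h5 := hr.2 _ _ hy
        have h6 := hr.2 _ _ h1
        have h7 : v ⋖ M v := by
          rcases hM.tri v (h2.trans hz) with h | h | h
          · have := hr.2 _ _ h
            omega
          · rw [h] at h4
            omega
          · exact h
        have h8 := rk_lt hf hr _ _ h
        exact h3.le.trans (ih v z (by omega) h2 hz h7 hnz)

/-- the lifting property -/
theorem lift {y z : P} (hyz : y ≤ z) (hz : z ≤ p) (hy : y ⋖ M y) (hnz : ¬ z ⋖ M z) : M y ≤ z :=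
  lift_aux hf hr hM _ y z le_rfl hyz hz hy hnz

/-- above a fixed point there is a rank two interval with one middle element -/
theorem bd_fix {x z : P} (hz : z ≤ p) (hzM : M z ⋖ z) (hxz : x ≤ z) (hx : M x = x) : bd x z := by
  have hfin : {y | x ≤ y ∧ y ≤ z ∧ M y = y}.Finite := (hf z).subset fun s hs => hs.2.1
  obtain ⟨y, ⟨h1, h2, h3⟩, hmax⟩ := hfin.exists_maximal ⟨x, le_rfl, hxz, hx⟩
  have hyz : y < z := by
    rcases h2.eq_or_lt with h | h
    · rw [h] at h3
      rw [h3] at hzM
      exact absurd hzM.lt (lt_irrefl _)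
    · exact h
  obtain ⟨w, h4, h5⟩ := exists_cov hf hyz
  have hyw : M y ≠ w := by rw [h3]; exact h4.lt.ne
  have h6 := hM.mono y w (h5.trans hz) h4 hyw
  rw [h3] at h6
  have hwf : M w ≠ w := by
    intro h
    exact absurd (hmax ⟨h1.trans h4.le, h5, h⟩ h4.le) (not_le_of_gt h4.lt)
  have h7 := rk_lt hf hr _ _ h6
  have h8 := hr.2 _ _ h4
  have h9 : w ⋖ M w := by
    rcases hM.tri w (h5.trans hz) with h | h | h
    · have := hr.2 _ _ h
      omega
    · exact absurd h hwf
    · exact h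
  have hnz : ¬ z ⋖ M z := fun h => absurd (h.lt.trans hzM.lt) (lt_irrefl _)
  have h10 := lift hf hr hM h5 hz h9 hnz
  refine ⟨y, w, M w, h1, ⟨h4, h9, ?_⟩, h10⟩
  intro t ht1 ht2
  by_contra hne
  have htp : t ≤ p := ht2.le.trans (h10.trans hz)
  have e1 := rk_lt hf hr _ _ ht1
  have e2 := rk_lt hf hr _ _ ht2
  have e3 := hr.2 _ _ h9
  have hy_t : y ⋖ t := cov_of_rk hf hr ht1 (by omega)
  have ht_w : t ⋖ M w := cov_of_rk hf hr ht2 (by omega)
  have hne' : M t ≠ M w := fun h => hne (inj hM htp (h5.trans hz) h)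
  have h11 := hM.mono t (M w) (h10.trans hz) ht_w hne'
  rw [hM.inv w (h5.trans hz)] at h11
  have h12 := hM.mono y t htp hy_t (by rw [h3]; exact ht1.ne)
  rw [h3] at h12
  exact h4.2 h12 h11

/-- up, down: impossible -/
theorem up_down {u w v : P} (hT : Thin1 u w v) (hv : v ≤ p) (hu : u ⋖ M u) (hvM : M v ⋖ v) :
    False := by
  obtain ⟨h1, h2, h3⟩ := hT
  have hnv : ¬ v ⋖ M v := fun h => absurd (h.lt.trans hvM.lt) (lt_irrefl _)
  have e1 := hr.2 _ _ h1
  have e2 := hr.2 _ _ h2
  have e3 := hr.2 _ _ hu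
  have e4 := hr.2 _ _ hvM
  have hup : u ≤ p := (h1.lt.trans h2.lt).le.trans hv
  have h4 := lift hf hr hM (h1.lt.trans h2.lt).le hv hu hnv
  have h5 : M u = w := by
    apply h3 _ hu.lt
    rcases h4.eq_or_lt with h | h
    · rw [h] at e3; omega
    · exact h
  have h6 : M w = u := by rw [← h5, hM.inv u hup]
  have hne : M w ≠ v := by rw [h6]; exact (h1.lt.trans h2.lt).ne
  have h7 := hM.mono w v hv h2 hne
  rw [h6] at h7
  have h8 := h3 _ h7 hvM.lt
  have h9 : M w = v := by rw [← h8, hM.inv v hv]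
  exact hne h9

/-- up, up -/
theorem up_up {u w v : P} (hT : Thin1 u w v) (hv : v ≤ p) (hu : u ⋖ M u) (hvM : v ⋖ M v)
    (hMv : M v ≤ p) : ∃ w', Thin1 (M u) w' (M v) := by
  obtain ⟨h1, h2, h3⟩ := hT
  have e1 := hr.2 _ _ h1
  have e2 := hr.2 _ _ h2
  have e3 := hr.2 _ _ hu
  have e4 := hr.2 _ _ hvM
  have hwp : w ≤ p := h2.le.trans hv
  have hup : u ≤ p := h1.le.trans hwp
  have hinv_u := hM.inv u hup
  have hinv_v := hM.inv v hv
  have key : ∀ t, M u < t → t < M v → t ≠ v → M t = w := by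
    intro t ht1 ht2 htv
    have e5 := rk_lt hf hr _ _ ht1
    have e6 := rk_lt hf hr _ _ ht2
    have c1 : M u ⋖ t := cov_of_rk hf hr ht1 (by omega)
    have c2 : t ⋖ M v := cov_of_rk hf hr ht2 (by omega)
    have htp : t ≤ p := ht2.le.trans hMv
    have hne2 : M t ≠ M v := fun h => htv (inj hM htp hv h)
    have h5 := hM.mono t (M v) hMv c2 hne2
    rw [hinv_v] at h5
    have hne1 : M (M u) ≠ t := by
      rw [hinv_u]
      intro h
      rw [← h] at ht1
      exact lt_asymm ht1 hu.lt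
    have h6 := hM.mono (M u) t htp c1 hne1
    rw [hinv_u] at h6
    exact h3 _ h6 h5
  by_cases hc : M u = w
  · refine ⟨v, ?_, hvM, ?_⟩
    · rw [hc]; exact h2
    · intro t ht1 ht2
      by_contra htv
      have h4 := key t ht1 ht2 htv
      have h5 : t = u := by
        rw [← hM.inv t (ht2.le.trans hMv), h4, ← hc, hinv_u]
      rw [h5] at ht1
      exact lt_asymm ht1 hu.lt
  · have h4 := hM.mono u w hwp h1 hc
    have e5 := rk_lt hf hr _ _ h4
    have hw : w ⋖ M w := by
      rcases hM.tri w hwp with h | h | h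
      · have := hr.2 _ _ h; omega
      · rw [h] at e5; omega
      · exact h
    have e6 := hr.2 _ _ hw
    have hwv : M w ≠ v := by
      intro h
      have : w = M v := by rw [← h, hM.inv w hwp]
      rw [← this] at hvM
      exact lt_asymm hvM.lt h2.lt
    have h5 := hM.mono w v hv h2 hwv
    refine ⟨M w, cov_of_rk hf hr h4 (by omega), cov_of_rk hf hr h5 (by omega), ?_⟩
    intro t ht1 ht2
    have htv : t ≠ v := by
      intro h
      rw [h] at ht1
      exact hc (h3 _ hu.lt ht1)
    rw [← key t ht1 ht2 htv, hM.inv t (ht2.le.trans hMv)]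

/-- down, down -/
theorem down_down {u w v : P} (hT : Thin1 u w v) (hv : v ≤ p) (hu : M u ⋖ u) (hvM : M v ⋖ v) :
    ∃ w', Thin1 (M u) w' (M v) := by
  obtain ⟨h1, h2, h3⟩ := hT
  have e1 := hr.2 _ _ h1
  have e2 := hr.2 _ _ h2
  have e3 := hr.2 _ _ hu
  have e4 := hr.2 _ _ hvM
  have hwp : w ≤ p := h2.le.trans hv
  have hup : u ≤ p := h1.le.trans hwp
  have hinv_u := hM.inv u hup
  have hinv_v := hM.inv v hv
  have hMv : M v ≤ p := hvM.le.trans hv
  have key : ∀ t, M u < t → t < M v → t ≠ u → M t = w := by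
    intro t ht1 ht2 htu
    have e5 := rk_lt hf hr _ _ ht1
    have e6 := rk_lt hf hr _ _ ht2
    have c1 : M u ⋖ t := cov_of_rk hf hr ht1 (by omega)
    have c2 : t ⋖ M v := cov_of_rk hf hr ht2 (by omega)
    have htp : t ≤ p := ht2.le.trans hMv
    have hne1 : M (M u) ≠ t := by rw [hinv_u]; exact fun h => htu h.symm
    have h6 := hM.mono (M u) t htp c1 hne1
    rw [hinv_u] at h6
    have hne2 : M t ≠ M v := by
      intro h
      have := inj hM htp hv h
      rw [this] at ht2
      exact lt_asymm ht2 hvM.lt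
    have h5 := hM.mono t (M v) hMv c2 hne2
    rw [hinv_v] at h5
    exact h3 _ h6 h5
  by_cases hc : M v = w
  · refine ⟨u, hu, ?_, ?_⟩
    · rw [hc]; exact h1
    · intro t ht1 ht2
      by_contra htu
      have h4 := key t ht1 ht2 htu
      have h5 : t = v := by
        rw [← hM.inv t (ht2.le.trans hMv), h4, ← hc, hinv_v]
      rw [h5] at ht2
      exact lt_asymm ht2 hvM.lt
  · have hwv : M w ≠ v := by
      intro h
      apply hc
      rw [← h, hM.inv w hwp]
    have h5 := hM.mono w v hv h2 hwv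
    have huw : M u ≠ w := by
      intro h
      rw [h] at hu
      exact lt_asymm hu.lt h1.lt
    have h4 := hM.mono u w hwp h1 huw
    have e5 := rk_lt hf hr _ _ h4
    have e6 := rk_lt hf hr _ _ h5
    refine ⟨M w, cov_of_rk hf hr h4 (by omega), cov_of_rk hf hr h5 (by omega), ?_⟩
    intro t ht1 ht2
    have htu : t ≠ u := by
      intro h
      rw [h] at ht2
      exact hc (h3 _ ht2 hvM.lt)
    rw [← key t ht1 ht2 htu, hM.inv t (ht2.le.trans hMv)]

/-- up, fixed -/
theorem up_fix {u w v : P} (hT : Thin1 u w v) (hv : v ≤ p) (hu : u ⋖ M u) (hvM : M v = v) :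
    M u = w := by
  obtain ⟨h1, h2, h3⟩ := hT
  have e1 := hr.2 _ _ h1
  have e2 := hr.2 _ _ h2
  have e3 := hr.2 _ _ hu
  have hwp : w ≤ p := h2.le.trans hv
  by_contra hc
  have e4 := rk_mono hf hr hM hwp h1 hc
  have hwv : M w ≠ v := by
    intro h
    have := hM.inv w hwp
    rw [h, hvM] at this
    exact h2.lt.ne this.symm
  have e5 := rk_mono hf hr hM hv h2 hwv
  rw [hvM] at e5
  omega

/-- the point above a lower element is in an interval of the same kind -/
theorem bd_up {y : P} (hy : y ⋖ M y) (hb : bd y p) : bd (M y) p := by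
  obtain ⟨u, w, v, h1, hT, h3⟩ := hb
  have hnp : ¬ p ⋖ M p := fun h => absurd (h.lt.trans hM.top.lt) (lt_irrefl _)
  have huv : u < v := hT.1.lt.trans hT.2.1.lt
  have hup : u ≤ p := huv.le.trans h3
  by_cases hu : u ⋖ M u
  · rcases hM.tri v h3 with h | h | h
    · exact absurd h (fun h => up_down hf hr hM hT h3 hu h)
    · have h4 : M y ≤ v := lift hf hr hM (h1.trans huv.le) h3 hy (by
        rw [h]; exact fun h' => lt_irrefl _ h'.lt)
      exact bd_mono (bd_fix hf hr hM le_rfl hM.top h3 h) h4 le_rfl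
    · have h4 : M v ≤ p := lift hf hr hM h3 le_rfl h hnp
      obtain ⟨w', hT'⟩ := up_up hf hr hM hT h3 hu h h4
      have h5 : M y ≤ M u := by
        have e := hM.inv u hup
        refine lift hf hr hM (h1.trans hu.le) (hM.le u hup) hy ?_
        rw [e]
        exact fun h' => lt_asymm h'.lt hu.lt
      exact bd_mono (bd_of hT') h5 h4
  · exact ⟨u, w, v, lift hf hr hM h1 hup hy hu, hT, h3⟩

end

end Pool.Agent.X222.PZ
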